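import Pool.Agent.helper95.T5.SpecE

set_option autoImplicit false

/-!
# T5, row TWB: twist II
-/

namespace Pool.Agent.T5

open Finset NumberField Pool.Agent.helper3.FT Pool.Agent.helper47.RA

/-! ## logarithms of the sizes -/

theorem TWB_lsN (N Y Y₂ : ℝ) (hN : 0 < N) (hY : 0 < Y) (hY₂ : 0 < Y₂) :
    0 < sN N Y Y₂ ∧ Real.log (sN N Y Y₂) = Real.log Y + Real.log Y₂ / 2 - Real.log N / 2 := by
  have h1 : 0 < √Y₂ := Real.sqrt_pos.2 hY₂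
  have h2 : 0 < √N := Real.sqrt_pos.2 hN
  unfold sN
  refine ⟨by positivity, ?_⟩
  rw [Real.log_div (by positivity) h2.ne', Real.log_mul hY.ne' h1.ne', Real.log_sqrt hY₂.le,
    Real.log_sqrt hN.le]

theorem TWB_lsK (N Y Y₂ : ℝ) (hN : 0 < N) (hY : 0 < Y) (hY₂ : 0 < Y₂) :
    0 < sK N Y Y₂ ∧ Real.log (sK N Y Y₂) = Real.log Y / 2 + Real.log Y₂ - Real.log N / 2 := by
  have h1 : 0 < √Y := Real.sqrt_pos.2 hY
  have h2 : 0 < √N := Real.sqrt_pos.2 hN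
  unfold sK
  refine ⟨by positivity, ?_⟩
  rw [Real.log_div (by positivity) h2.ne', Real.log_mul h1.ne' hY₂.ne', Real.log_sqrt hY.le,
    Real.log_sqrt hN.le]

theorem TWB_lsM (N Y Y₂ : ℝ) (hN : 0 < N) (hY : 0 < Y) (hY₂ : 0 < Y₂) :
    0 < sM N Y Y₂ ∧
      Real.log (sM N Y Y₂) = 3 * Real.log Y / 2 + Real.log Y₂ / 2 - Real.log N / 2 := by
  have h1 : 0 < √Y := Real.sqrt_pos.2 hY
  have h2 : 0 < √N := Real.sqrt_pos.2 hN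
  have h3 : 0 < √Y₂ := Real.sqrt_pos.2 hY₂
  unfold sM
  refine ⟨by positivity, ?_⟩
  rw [Real.log_div (by positivity) h2.ne', Real.log_mul (by positivity) h3.ne',
    Real.log_mul hY.ne' h1.ne', Real.log_sqrt hY.le, Real.log_sqrt hN.le, Real.log_sqrt hY₂.le]
  ring

theorem TWB_lsG (N Y Y₂ : ℝ) (hN : 0 < N) (hY : 0 < Y) (hY₂ : 0 < Y₂) :
    0 < sG N Y Y₂ ∧
      Real.log (sG N Y Y₂) = Real.log Y / 2 + 3 * Real.log Y₂ / 2 - Real.log N / 2 := by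
  have h1 : 0 < √Y := Real.sqrt_pos.2 hY
  have h2 : 0 < √N := Real.sqrt_pos.2 hN
  have h3 : 0 < √Y₂ := Real.sqrt_pos.2 hY₂
  unfold sG
  refine ⟨by positivity, ?_⟩
  rw [Real.log_div (by positivity) h2.ne', Real.log_mul (by positivity) h3.ne',
    Real.log_mul h1.ne' hY₂.ne', Real.log_sqrt hY.le, Real.log_sqrt hN.le, Real.log_sqrt hY₂.le]
  ring

theorem TWB_MG (N Y Y₂ : ℝ) (hN : 0 < N) (hY : 0 < Y) (hY₂ : 0 < Y₂) :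
    sM N Y Y₂ * sG N Y Y₂ = Y₂ * sN N Y Y₂ ^ 2 := by
  have h1 : √Y ^ 2 = Y := Real.sq_sqrt hY.le
  have h3 : √Y₂ ^ 2 = Y₂ := Real.sq_sqrt hY₂.le
  have h2 : √N ≠ 0 := (Real.sqrt_pos.2 hN).ne'
  unfold sM sG sN
  field_simp
  rw [h1]

/-- the numerical facts -/
structure TWB_Num (δ κ C N Y Y₂ : ℝ) (q : ℕ) : Prop where
  n1 : 1 ≤ N
  y1 : 1 ≤ Y
  w1 : 1 ≤ Y₂
  rng : Rng δ N Y Y₂
  a1 : 1 ≤ κ ^ 2 * sN N Y Y₂
  a2 : 1 ≤ κ ^ 2 * sK N Y Y₂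
  q1 : (q : ℝ) ≤ N ^ (1 / 8 : ℝ)
  q2 : (q : ℝ) ≤ sG N Y Y₂
  q3 : (q : ℝ) ≤ Y
  q4 : (q : ℝ) ≤ N
  m1 : 1 ≤ sM N Y Y₂
  t1 : 6 * sN N Y Y₂ ≤ N
  t2 : 6 * sK N Y Y₂ ≤ N
  t3 : 20 / κ * sM N Y Y₂ ≤ N
  t4 : 20 * sG N Y Y₂ ≤ N
  h1 : 200 * Y ≤ κ ^ 8 * sN N Y Y₂ ^ 3 * sK N Y Y₂
  h2 : q * 6 ^ 4 * sN N Y Y₂ ^ 3 * sK N Y Y₂ ≤ N * Y
  c1 : C * N ^ (δ / 200) ≤ N ^ (δ / 100)

theorem TWB_num (δ κ C : ℝ) (hδ : 0 < δ) (hδ1 : δ ≤ 1 / 10) (hκ : 0 < κ) (hκ1 : κ ≤ 1)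
    (hC : 1 ≤ C) : ∃ N₀ : ℝ, ∀ N Y : ℝ, N₀ ≤ N → N ^ (0.39 : ℝ) ≤ Y → Y ≤ N ^ (1 / 2 - δ) →
    ∀ q : ℕ, q.Prime → (q : ℝ) ≤ N ^ (1 / 2 + δ / 100) / Y →
    TWB_Num δ κ C N Y (N ^ (1 / 2 + δ / 100)) q := by
  set ℓ := -Real.log κ with hℓ
  have hℓ0 : 0 ≤ ℓ := by
    have := Real.log_nonpos hκ.le hκ1
    linarith
  have hc0 : 0 ≤ Real.log C := Real.log_nonneg hC
  set B := 10 + 10 * ℓ + Real.log C with hB
  have hB0 : 10 ≤ B := by linarith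
  refine ⟨Real.exp ((200 / δ + 1000) * B), ?_⟩
  intro N Y hN hY1 hY2 q hq hq1
  have hNpos : 0 < N := lt_of_lt_of_le (Real.exp_pos _) hN
  have hL : (200 / δ + 1000) * B ≤ Real.log N := by
    rw [← Real.log_exp ((200 / δ + 1000) * B)]
    exact Real.log_le_log (Real.exp_pos _) hN
  set L := Real.log N with hLdef
  have hL1 : 1000 * B ≤ L := by
    have h : 0 ≤ 200 / δ * B := by positivity
    nlinarith
  have hL2 : B ≤ δ / 200 * L := by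
    have h : δ / 200 * (200 / δ * B) ≤ δ / 200 * L := by
      refine mul_le_mul_of_nonneg_left ?_ (by positivity)
      nlinarith
    have h2 : δ / 200 * (200 / δ * B) = B := by field_simp
    linarith
  have hL0 : 0 < L := by linarith
  have hYpos : 0 < Y := lt_of_lt_of_le (Real.rpow_pos_of_pos hNpos _) hY1
  set Y₂ := N ^ (1 / 2 + δ / 100) with hY₂
  have hY₂pos : 0 < Y₂ := Real.rpow_pos_of_pos hNpos _
  have hv : Real.log Y₂ = (1 / 2 + δ / 100) * L := Real.log_rpow hNpos _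
  have hu1 : 0.39 * L ≤ Real.log Y := by
    have h := Real.log_le_log (Real.rpow_pos_of_pos hNpos _) hY1
    rwa [Real.log_rpow hNpos] at h
  have hu2 : Real.log Y ≤ (1 / 2 - δ) * L := by
    have h := Real.log_le_log hYpos hY2
    rwa [Real.log_rpow hNpos] at h
  have hqpos : (0 : ℝ) < q := by exact_mod_cast hq.pos
  have hlq : Real.log q ≤ Real.log Y₂ - Real.log Y := by
    have h := Real.log_le_log hqpos hq1
    rwa [Real.log_div hY₂pos.ne' hYpos.ne'] at h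
  set u := Real.log Y with hu
  set v := Real.log Y₂ with hvdef
  set D := δ * L with hD
  have hD0 : 0 ≤ D := by positivity
  have hD1 : D ≤ L / 10 := by
    have := mul_le_mul_of_nonneg_right hδ1 hL0.le
    linarith
  have hv' : v = L / 2 + D / 100 := by rw [hv, hD]; ring
  have hu2' : u ≤ L / 2 - D := by
    have : (1 / 2 - δ) * L = L / 2 - D := by rw [hD]; ring
    linarith
  obtain ⟨pN, lN⟩ := TWB_lsN N Y Y₂ hNpos hYpos hY₂pos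
  obtain ⟨pK, lK⟩ := TWB_lsK N Y Y₂ hNpos hYpos hY₂pos
  obtain ⟨pM, lM⟩ := TWB_lsM N Y Y₂ hNpos hYpos hY₂pos
  obtain ⟨pG, lG⟩ := TWB_lsG N Y Y₂ hNpos hYpos hY₂pos
  rw [← hu, ← hvdef, ← hLdef] at lN lK lM lG
  have hN1 : 1 ≤ N := by
    have h := (Real.log_nonneg_iff hNpos).1 hL0.le
    exact h
  have l6 : Real.log 6 ≤ 5 := by
    have := Real.log_le_sub_one_of_pos (show (0 : ℝ) < 6 by norm_num)
    linarith
  have l20 : Real.log 20 ≤ 19 := by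
    have := Real.log_le_sub_one_of_pos (show (0 : ℝ) < 20 by norm_num)
    linarith
  have l200 : Real.log 200 ≤ 199 := by
    have := Real.log_le_sub_one_of_pos (show (0 : ℝ) < 200 by norm_num)
    linarith
  have key : ∀ a b : ℝ, 0 < a → 0 < b → Real.log a ≤ Real.log b → a ≤ b := fun a b ha hb h =>
    (Real.log_le_log_iff ha hb).1 h
  refine ⟨hN1, ?_, ?_, ⟨?_, hY2, ?_, le_rfl⟩, ?_, ?_, ?_, ?_, ?_, ?_, ?_, ?_, ?_, ?_, ?_, ?_, ?_, ?_⟩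
  · exact (Real.log_nonneg_iff hYpos).1 (by rw [← hu]; linarith)
  · exact (Real.log_nonneg_iff hY₂pos).1 (by rw [← hvdef]; linarith)
  · exact le_trans (Real.rpow_le_rpow_of_exponent_le hN1 (by norm_num)) hY1
  · rw [hY₂]
    exact Real.rpow_le_rpow_of_exponent_le hN1 (by linarith)
  · refine key _ _ one_pos (by positivity) ?_
    rw [Real.log_mul (by positivity) pN.ne', Real.log_pow, lN, Real.log_one]
    push_cast
    linarith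
  · refine key _ _ one_pos (by positivity) ?_
    rw [Real.log_mul (by positivity) pK.ne', Real.log_pow, lK, Real.log_one]
    push_cast
    linarith
  · refine key _ _ hqpos (Real.rpow_pos_of_pos hNpos _) ?_
    rw [Real.log_rpow hNpos]
    linarith
  · refine key _ _ hqpos pG ?_
    linarith
  · refine key _ _ hqpos hYpos ?_
    linarith
  · refine key _ _ hqpos hNpos ?_
    linarith
  · refine key _ _ one_pos pM ?_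
    rw [Real.log_one]
    linarith
  · refine key _ _ (by positivity) hNpos ?_
    rw [Real.log_mul (by norm_num) pN.ne']
    linarith
  · refine key _ _ (by positivity) hNpos ?_
    rw [Real.log_mul (by norm_num) pK.ne']
    linarith
  · refine key _ _ (by positivity) hNpos ?_
    rw [Real.log_mul (by positivity) pM.ne', Real.log_div (by norm_num) hκ.ne']
    linarith
  · refine key _ _ (by positivity) hNpos ?_
    rw [Real.log_mul (by norm_num) pG.ne']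
    linarith
  · refine key _ _ (by positivity) (by positivity) ?_
    rw [Real.log_mul (by norm_num) hYpos.ne', Real.log_mul (by positivity) pK.ne',
      Real.log_mul (by positivity) (by positivity), Real.log_pow, Real.log_pow, lN, lK]
    push_cast
    linarith
  · refine key _ _ (by positivity) (by positivity) ?_
    rw [Real.log_mul hNpos.ne' hYpos.ne', Real.log_mul (by positivity) pK.ne',
      Real.log_mul (by positivity) (by positivity), Real.log_mul hqpos.ne' (by norm_num),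
      Real.log_pow, Real.log_pow, lN, lK]
    push_cast
    linarith
  · have hCpos : 0 < C := by linarith
    refine key _ _ (by positivity) (Real.rpow_pos_of_pos hNpos _) ?_
    rw [Real.log_mul hCpos.ne' (Real.rpow_pos_of_pos hNpos _).ne', Real.log_rpow hNpos,
      Real.log_rpow hNpos]
    have h : δ / 100 * L = δ / 200 * L + δ / 200 * L := by ring
    rw [← hLdef, h]
    linarith

/-! ## one pair `(n, k)` -/

/-- the residues for a pair -/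
theorem TWB_res (hRE1 : RE1_stmt) (hRE2 : RE2_stmt) (q : ℕ) (p : ℕ × ℕ)
    (hco : Nat.Coprime p.1 p.2) (hq : Nat.Coprime q p.2) :
    ∃ ρ : ℤ × ℤ × ℤ, ∃ c₀ : ℤ,
      ResG (p.1 : ℤ) (p.2 : ℤ) ((1 : ℕ) : ℤ) (q : ℤ) ((1 : ℕ) : ℤ) ((1 : ℕ) : ℤ) ρ.1 ρ.2.1 ρ.2.2 ∧
      ∀ m g z : ℤ, ((p.1 : ℤ) ^ 3 ∣ z * (p.2 : ℤ) ^ 4 + m * g * (p.2 : ℤ) ^ 2 -
        q * g ^ 2 * (p.1 : ℤ) ^ 2) → ((p.2 : ℤ) ∣ q * z * (p.1 : ℤ) ^ 2 - m ^ 2) →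
        ((p.1 ^ 3 * p.2 * 1 : ℕ) : ℤ) ∣ z - (ρ.1 * m ^ 2 + ρ.2.1 * m * g + ρ.2.2 * g ^ 2 + c₀) := by
  have h1 : IsCoprime ((p.1 : ℤ) * ((1 : ℕ) : ℤ)) ((p.2 : ℤ) * ((1 : ℕ) : ℤ)) := by
    simpa using Nat.isCoprime_iff_coprime.2 hco
  have h2 : IsCoprime (((1 : ℕ) : ℤ)) ((p.1 : ℤ) * ((1 : ℕ) : ℤ)) := by
    rw [Nat.cast_one]
    exact isCoprime_one_left
  have h3 : IsCoprime (q : ℤ) ((p.2 : ℤ) * ((1 : ℕ) : ℤ)) := by
    simpa using Nat.isCoprime_iff_coprime.2 hq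
  obtain ⟨α, β, γ, hR⟩ := hRE1 _ _ _ _ _ _ h1 h2 h3
  obtain ⟨c₀, hc₀⟩ := hRE2 _ _ _ _ _ _ α β γ h1 h2 h3 hR 0 0
  refine ⟨(α, β, γ), c₀, hR, ?_⟩
  intro m g z hA hB
  have h := (hc₀ m g z).2 ⟨?_, ?_⟩
  · have e1 : ((p.1 ^ 3 * p.2 * 1 : ℕ) : ℤ) =
        (p.1 : ℤ) ^ 3 * ((1 : ℕ) : ℤ) * ((p.2 : ℤ) * ((1 : ℕ) : ℤ)) := by
      push_cast
      ring
    rw [e1]
    exact h
  · have e2 : ((1 : ℕ) : ℤ) * z * (p.2 : ℤ) ^ 4 + ((1 : ℕ) : ℤ) * m * g * (p.2 : ℤ) ^ 2 -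
        q * g ^ 2 * (p.1 : ℤ) ^ 2 + (p.1 : ℤ) ^ 3 * 0 =
        z * (p.2 : ℤ) ^ 4 + m * g * (p.2 : ℤ) ^ 2 - q * g ^ 2 * (p.1 : ℤ) ^ 2 := by
      push_cast
      ring
    rw [e2, Nat.cast_one, mul_one]
    exact hA
  · have e3 : (q : ℤ) * z * (p.1 : ℤ) ^ 2 - ((1 : ℕ) : ℤ) * m ^ 2 - (p.2 : ℤ) * 0 =
        q * z * (p.1 : ℤ) ^ 2 - m ^ 2 := by
      push_cast
      ring
    rw [e3, Nat.cast_one, mul_one]
    exact hB

/-- the tuples of a pair inject into the fibre -/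
theorem TWB_fib (q : ℕ) (hqp : q.Prime) (p : ℕ × ℕ) (hq : Nat.Coprime q p.1)
    (ρ : ℤ × ℤ × ℤ) (c₀ : ℤ) (a b V : ℕ)
    (hρ : ∀ m g z : ℤ, ((p.1 : ℤ) ^ 3 ∣ z * (p.2 : ℤ) ^ 4 + m * g * (p.2 : ℤ) ^ 2 -
        q * g ^ 2 * (p.1 : ℤ) ^ 2) → ((p.2 : ℤ) ∣ q * z * (p.1 : ℤ) ^ 2 - m ^ 2) →
        ((p.1 ^ 3 * p.2 * 1 : ℕ) : ℤ) ∣ z - (ρ.1 * m ^ 2 + ρ.2.1 * m * g + ρ.2.2 * g ^ 2 + c₀))
    (S : Finset Tpl) (hS : ∀ t ∈ S, t.1 = p ∧ IsT t ∧ (q : ℤ) ∣ t.2.2.2 ∧ (q : ℤ) ∣ t.2.2.1 ∧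
      |t.2.1| ≤ a ∧ |t.2.2.1 / q| ≤ b ∧ 0 ≤ t.2.2.2 / q ∧ t.2.2.2 / q < V) :
    S.card ≤ (fibG (-(a : ℤ)) (-(b : ℤ)) 0 (2 * a + 1) (2 * b + 1) V 1 (p.1 ^ 3 * p.2 * 1) 0 0
      ρ.1 ρ.2.1 ρ.2.2 c₀).card := by
  have hq0 : (q : ℤ) ≠ 0 := by exact_mod_cast hqp.ne_zero
  refine Finset.card_le_card_of_injOn (fun t : Tpl => (t.2.1, t.2.2.1 / (q : ℤ), t.2.2.2 / (q : ℤ)))
    ?_ ?_
  · intro t ht
    obtain ⟨hp, hT, hZ, hg, h1, h2, h3, h4⟩ := hS t (Finset.mem_coe.1 ht)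
    obtain ⟨Z', hZ'⟩ := hZ
    obtain ⟨g', hg'⟩ := hg
    have eZ : t.2.2.2 / (q : ℤ) = Z' := by
      rw [hZ', Int.mul_ediv_cancel_left _ hq0]
    have eg : t.2.2.1 / (q : ℤ) = g' := by
      rw [hg', Int.mul_ediv_cancel_left _ hq0]
    rw [eZ] at h3 h4
    rw [eg] at h2
    rw [Finset.mem_coe]
    show (t.2.1, t.2.2.1 / (q : ℤ), t.2.2.2 / (q : ℤ)) ∈ _
    rw [eZ, eg]
    unfold fibG
    rw [abs_le] at h1 h2
    simp only [Finset.mem_filter, Finset.mem_product, Finset.mem_Ico, Nat.cast_one, one_dvd,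
      and_true]
    have hc1 := hT.c1
    have hc2 := hT.c2
    rw [hp, hZ', hg'] at hc1
    rw [hp, hZ'] at hc2
    refine ⟨⟨⟨h1.1, ?_⟩, ⟨h2.1, ?_⟩, ⟨h3, ?_⟩⟩, ?_⟩
    · push_cast
      linarith [h1.2]
    · push_cast
      linarith [h2.2]
    · linarith
    · refine hρ t.2.1 g' Z' ?_ ?_
      · have e1 : (q : ℤ) * Z' * (p.2 : ℤ) ^ 4 + t.2.1 * (q * g') * (p.2 : ℤ) ^ 2 -
            (q * g') ^ 2 * (p.1 : ℤ) ^ 2 =
            q * (Z' * (p.2 : ℤ) ^ 4 + t.2.1 * g' * (p.2 : ℤ) ^ 2 - q * g' ^ 2 * (p.1 : ℤ) ^ 2) := by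
          ring
        rw [e1] at hc1
        have hcp : IsCoprime ((p.1 : ℤ) ^ 3) (q : ℤ) :=
          (Nat.isCoprime_iff_coprime.2 hq.symm).pow_left
        exact hcp.dvd_of_dvd_mul_left hc1
      · have e2 : (q : ℤ) * Z' * (p.1 : ℤ) ^ 2 - t.2.1 ^ 2 = -(t.2.1 ^ 2 - q * Z' * (p.1 : ℤ) ^ 2) := by
          ring
        rw [e2]
        exact (dvd_neg).2 hc2
  · intro t ht t' ht' h
    obtain ⟨hp, hT, ⟨Z', hZ'⟩, ⟨g', hg'⟩, -⟩ := hS t (Finset.mem_coe.1 ht)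
    obtain ⟨hp2, hT2, ⟨Z'', hZ''⟩, ⟨g'', hg''⟩, -⟩ := hS t' (Finset.mem_coe.1 ht')
    simp only [Prod.mk.injEq] at h
    obtain ⟨e1, e2, e3⟩ := h
    rw [hg', hg'', Int.mul_ediv_cancel_left _ hq0, Int.mul_ediv_cancel_left _ hq0] at e2
    rw [hZ', hZ'', Int.mul_ediv_cancel_left _ hq0, Int.mul_ediv_cancel_left _ hq0] at e3
    have e2' : t.2.2.1 = t'.2.2.1 := by rw [hg', hg'', e2]
    have e3' : t.2.2.2 = t'.2.2.2 := by rw [hZ', hZ'', e3]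
    exact Prod.ext (hp.trans hp2.symm) (Prod.ext e1 (Prod.ext e2' e3'))

/-! ## one block -/

/-- the body of `BLU_stmt` -/
def TWB_B (ε C : ℝ) : Prop :=
  ∀ (T N K M G V P e q₁ q₂ y H : ℕ) (a : Fin 4 → ℕ)
    (W : Finset (ℕ × ℕ)) (r s : ℕ × ℕ → ℕ) (ρ : ℕ × ℕ → ℤ × ℤ × ℤ) (m₀ g₀ z₀ r₁ r₂ c₀ : ℕ × ℕ → ℤ),
    1 ≤ N → N ≤ T → 1 ≤ K → K ≤ T → 1 ≤ M → M ≤ T → 1 ≤ G → G ≤ T → 1 ≤ H → H ≤ T → 1 ≤ V → 1 ≤ P →
    1 ≤ e → 1 ≤ q₁ → 1 ≤ q₂ → q₁ * q₂ * e ≤ T → 1 ≤ y → y ≤ T → (∀ i, a i ≤ T) → Squarefree y →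
    Sides N K M G H e q₁ q₂ a → W ⊆ pairs N K y → Resid W q₁ q₂ e r s ρ → 64 * H * V ≤ N ^ 3 * K * e →
    ∑ p ∈ W, ((fibG (m₀ p) (g₀ p) (z₀ p) M G V P (p.1 ^ 3 * p.2 * e) (r₁ p) (r₂ p)
      (ρ p).1 (ρ p).2.1 (ρ p).2.2 (c₀ p)).card : ℝ) ≤
      2 / H * (((M : ℝ) / P + 1) * ((G : ℝ) / P + 1)) * (W.card : ℝ) +
        C * (T : ℝ) ^ ε * (√((M : ℝ) * G) / H) * nB N K H y q₁ q₂ e a

/-- the body of `NUMT_stmt` -/
def TWB_M (δ c₀ C₀ N Y Y₂ : ℝ) : Prop :=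
  ∀ N₁ K₁ M G H q q₁ q₂ : ℕ, Blk c₀ C₀ N Y Y₂ N₁ K₁ → 1 ≤ q → (q : ℝ) ≤ N ^ (1 / 8 : ℝ) →
    q = q₁ * q₂ → (q₁ = 1 ∨ q₂ = 1) →
    c₀ * sM N Y Y₂ ≤ q₁ * M → (q₁ * M : ℝ) ≤ C₀ * sM N Y Y₂ →
    c₀ * sG N Y Y₂ ≤ q₂ * G → (q₂ * G : ℝ) ≤ C₀ * sG N Y Y₂ →
    1 ≤ H → (H : ℝ) ≤ C₀ * q * ((N₁ : ℝ) ^ 3 * K₁ / Y) →
    ∃ a : Fin 4 → ℕ, Sides N₁ K₁ M G H 1 q₁ q₂ a ∧ (∀ i, (a i : ℝ) ≤ N) ∧
      √((M : ℝ) * G) * nB N₁ K₁ H 1 q₁ q₂ 1 a ≤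
        relE δ N Y Y₂ q * (q * ((N₁ : ℝ) ^ 3 * K₁ / Y)) * (Y * Y₂)

theorem TWB_relE (δ N Y Y₂ y : ℝ) (hN : 0 ≤ N) (hY : 0 ≤ Y) (hY₂ : 0 ≤ Y₂) :
    0 ≤ relE δ N Y Y₂ y := by
  unfold relE
  have h1 : 0 ≤ N ^ (δ / 100) := Real.rpow_nonneg hN _
  have h2 : 0 ≤ (Y * Y₂ / N) ^ (3 / 2 : ℝ) := Real.rpow_nonneg (by positivity) _
  positivity

/-- the main term -/
theorem TWB_main (κ Y Y₂ sn sm sg n k q H M G w : ℝ) (hκ : 0 < κ) (hY : 0 < Y) (hY₂ : 0 < Y₂)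
    (hsn : 0 < sn) (hsm : 0 < sm) (hsg : 0 < sg) (hMG : sm * sg = Y₂ * sn ^ 2) (hn : κ ^ 2 * sn ≤ n)
    (hk : 0 < k) (hq : 0 < q) (_hH : 0 < H) (hH1 : 1 / H ≤ 256 * Y / (q * (n ^ 3 * k)))
    (hM0 : 0 ≤ M) (hM : M + 1 ≤ 16 / κ * sm) (hG0 : 0 ≤ G) (hG : G + 1 ≤ 20 * sg / q)
    (hw0 : 0 ≤ w) (hw : w ≤ n * k) :
    2 / H * ((M / (1 : ℕ) + 1) * (G / (1 : ℕ) + 1)) * w ≤
      163840 / κ ^ 5 / q ^ 2 * (Y * Y₂) := by
  have hn0 : 0 < n := lt_of_lt_of_le (by positivity) hn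
  rw [Nat.cast_one, div_one, div_one]
  have h1 : 2 / H * ((M + 1) * (G + 1)) * w ≤
      (2 * (256 * Y / (q * (n ^ 3 * k)))) * ((16 / κ * sm) * (20 * sg / q)) * (n * k) := by
    have e : 2 / H = 2 * (1 / H) := by ring
    rw [e]
    gcongr
  refine le_trans h1 ?_
  have e : (2 * (256 * Y / (q * (n ^ 3 * k)))) * ((16 / κ * sm) * (20 * sg / q)) * (n * k) =
      163840 / κ / q ^ 2 * (Y * (sm * sg)) / n ^ 2 := by
    field_simp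
    ring
  rw [e, hMG, div_le_iff₀ (by positivity)]
  have h2 : κ ^ 4 * sn ^ 2 ≤ n ^ 2 := by
    have h := mul_self_le_mul_self (by positivity) hn
    nlinarith
  have e2 : 163840 / κ / q ^ 2 * (Y * (Y₂ * sn ^ 2)) =
      163840 / κ ^ 5 / q ^ 2 * (Y * Y₂) * (κ ^ 4 * sn ^ 2) := by
    field_simp
  rw [e2]
  exact mul_le_mul_of_nonneg_left h2 (by positivity)

/-- the error term -/
theorem TWB_err (C₁ T N ε H sq nb x Y Y₂ q R : ℝ) (hC₁ : 1 ≤ C₁) (hT0 : 0 ≤ T) (hTN : T ≤ N)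
    (hε : 0 ≤ ε) (hH : 0 < H) (hx : 0 < x) (hY : 0 < Y) (hY₂ : 0 < Y₂) (hq : 0 < q)
    (hH1 : 1 / H ≤ 256 * Y / (q * x)) (hR : 0 ≤ R)
    (h : sq * nb ≤ R * (q * (x / Y)) * (Y * Y₂)) :
    C₁ * T ^ ε * (sq / H) * nb ≤ 256 * C₁ * N ^ ε * R * (Y * Y₂) := by
  have hT : T ^ ε ≤ N ^ ε := Real.rpow_le_rpow hT0 hTN hε
  have hT1 : 0 ≤ T ^ ε := Real.rpow_nonneg hT0 _
  have hN1 : 0 ≤ C₁ * N ^ ε := by
    have := Real.rpow_nonneg (hT0.trans hTN) ε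
    positivity
  have e1 : C₁ * T ^ ε * (sq / H) * nb = C₁ * T ^ ε * (1 / H) * (sq * nb) := by ring
  rw [e1]
  calc C₁ * T ^ ε * (1 / H) * (sq * nb) ≤
        C₁ * T ^ ε * (1 / H) * (R * (q * (x / Y)) * (Y * Y₂)) :=
        mul_le_mul_of_nonneg_left h (by positivity)
    _ ≤ C₁ * N ^ ε * (256 * Y / (q * x)) * (R * (q * (x / Y)) * (Y * Y₂)) := by
        gcongr
    _ = 256 * C₁ * N ^ ε * R * (Y * Y₂) := by
        field_simp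

theorem TWB_block (hRE1 : RE1_stmt) (hRE2 : RE2_stmt) (hCZ : CZ_stmt)
    (δ κ N Y Y₂ C₁ C : ℝ) (q : ℕ) (hqp : q.Prime) (hδ : 0 < δ) (hκ : 0 < κ) (hκ1 : κ ≤ 1)
    (hC₁ : 1 ≤ C₁) (num : TWB_Num δ κ C N Y Y₂ q) (hB : TWB_B (δ / 200) C₁)
    (hM : TWB_M δ (κ ^ 2) (20 / κ) N Y Y₂) (N₁ K₁ : ℕ) (hN₁ : 1 ≤ N₁) (hK₁ : 1 ≤ K₁)
    (hBlk : Blk (κ ^ 2) 6 N Y Y₂ N₁ K₁) (F : Finset Tpl)
    (hF : ∀ t ∈ F, Cen κ N Y Y₂ t ∧ ¬ q ∣ t.1.1 * t.1.2 ∧ (q : ℤ) ∣ t.2.2.2 ∧ (q : ℤ) ∣ t.2.2.1)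
    (hF' : ∀ t ∈ F, N₁ < 2 * t.1.1 ∧ t.1.1 ≤ N₁ ∧ K₁ < 2 * t.1.2 ∧ t.1.2 ≤ K₁) :
    (F.card : ℝ) ≤ (163840 / κ ^ 5 / (q : ℝ) ^ 2 + 256 * C₁ * N ^ (δ / 200) * relE δ N Y Y₂ q) *
      (Y * Y₂) := by
  classical
  have hN := num.n1
  have hY := num.y1
  have hY₂ := num.w1
  have hNp : 0 < N := by linarith
  have hYp : 0 < Y := by linarith
  have hY₂p : 0 < Y₂ := by linarith
  have hsn : 0 < sN N Y Y₂ := (TWB_lsN N Y Y₂ hNp hYp hY₂p).1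
  have hsk : 0 < sK N Y Y₂ := (TWB_lsK N Y Y₂ hNp hYp hY₂p).1
  have hsm : 0 < sM N Y Y₂ := (TWB_lsM N Y Y₂ hNp hYp hY₂p).1
  have hsg : 0 < sG N Y Y₂ := (TWB_lsG N Y Y₂ hNp hYp hY₂p).1
  have hq1 : 1 ≤ q := hqp.one_le
  have hqR : (1 : ℝ) ≤ q := by exact_mod_cast hq1
  have hqR0 : (0 : ℝ) < q := by linarith
  have hN₁R : (1 : ℝ) ≤ N₁ := by exact_mod_cast hN₁
  have hK₁R : (1 : ℝ) ≤ K₁ := by exact_mod_cast hK₁
  have hk20 : 20 ≤ 20 / κ := by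
    rw [le_div_iff₀ hκ]
    linarith
  -- the intervals
  set a : ℕ := ⌈6 / κ * sM N Y Y₂⌉₊ with ha
  set b : ℕ := ⌈8 * sG N Y Y₂ / q⌉₊ with hb
  set V : ℕ := ⌊Y / q⌋₊ + 1 with hV
  set H : ℕ := N₁ ^ 3 * K₁ / (64 * V) with hH
  have ha1 : 6 / κ * sM N Y Y₂ ≤ a := Nat.le_ceil _
  have ha2 : (a : ℝ) ≤ 6 / κ * sM N Y Y₂ + 1 := (Nat.ceil_lt_add_one (by positivity)).le
  have hb1 : 8 * sG N Y Y₂ / q ≤ b := Nat.le_ceil _
  have hb2 : (b : ℝ) ≤ 8 * sG N Y Y₂ / q + 1 := (Nat.ceil_lt_add_one (by positivity)).le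
  have hYq : 1 ≤ Y / q := by
    rw [le_div_iff₀ hqR0]
    linarith [num.q3]
  have hV1 : Y / q ≤ V := by
    rw [hV]
    push_cast
    exact (Nat.lt_floor_add_one _).le
  have hV2 : (V : ℝ) ≤ 2 * (Y / q) := by
    rw [hV]
    push_cast
    have := Nat.floor_le (show (0 : ℝ) ≤ Y / q by positivity)
    linarith
  have hVpos : 1 ≤ V := by omega
  have hVR : (0 : ℝ) < V := by exact_mod_cast hVpos
  have hsgq : 1 ≤ sG N Y Y₂ / q := by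
    rw [le_div_iff₀ hqR0]
    linarith [num.q2]
  have hsmk : sM N Y Y₂ ≤ 1 / κ * sM N Y Y₂ := by
    have : 1 ≤ 1 / κ := by rw [le_div_iff₀ hκ]; linarith
    nlinarith
  -- the size of N₁ ^ 3 * K₁
  set x : ℝ := (N₁ : ℝ) ^ 3 * K₁ with hx
  have hxp : 0 < x := by positivity
  have hx1 : 200 * Y ≤ x := by
    refine le_trans num.h1 ?_
    have h1 := hBlk.n1
    have h2 := hBlk.k1
    calc κ ^ 8 * sN N Y Y₂ ^ 3 * sK N Y Y₂ = (κ ^ 2 * sN N Y Y₂) ^ 3 * (κ ^ 2 * sK N Y Y₂) := by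
          ring
      _ ≤ (N₁ : ℝ) ^ 3 * K₁ := by gcongr
  have hx2 : q * x ≤ N * Y := by
    refine le_trans ?_ num.h2
    have h1 := hBlk.n2
    have h2 := hBlk.k2
    calc (q : ℝ) * x ≤ q * ((6 * sN N Y Y₂) ^ 3 * (6 * sK N Y Y₂)) := by
          rw [hx]
          gcongr
      _ = q * 6 ^ 4 * sN N Y Y₂ ^ 3 * sK N Y Y₂ := by ring
  have hxcast : ((N₁ ^ 3 * K₁ : ℕ) : ℝ) = x := by
    push_cast
    rfl
  have hYq2 : Y / q ≤ Y := div_le_self hYp.le hqR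
  have hHle : 64 * V ≤ N₁ ^ 3 * K₁ := by
    have h : ((64 * V : ℕ) : ℝ) ≤ ((N₁ ^ 3 * K₁ : ℕ) : ℝ) := by
      rw [hxcast]
      push_cast
      linarith
    exact_mod_cast h
  have hH1 : 1 ≤ H := by
    rw [hH, Nat.le_div_iff_mul_le (by positivity)]
    linarith
  have hHR : (1 : ℝ) ≤ H := by exact_mod_cast hH1
  have hHV : 64 * H * V ≤ N₁ ^ 3 * K₁ * 1 := by
    have h := Nat.div_mul_le_self (N₁ ^ 3 * K₁) (64 * V)
    rw [← hH] at h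
    calc 64 * H * V = H * (64 * V) := by ring
      _ ≤ N₁ ^ 3 * K₁ := h
      _ = N₁ ^ 3 * K₁ * 1 := by ring
  have hHx : (H : ℝ) * (64 * V) ≤ x := by
    have h : ((H * (64 * V) : ℕ) : ℝ) ≤ ((N₁ ^ 3 * K₁ : ℕ) : ℝ) := by
      exact_mod_cast Nat.div_mul_le_self (N₁ ^ 3 * K₁) (64 * V)
    rw [hxcast] at h
    push_cast at h
    exact h
  have hxH : x ≤ 2 * H * (64 * V) := by
    have h : N₁ ^ 3 * K₁ < (H + 1) * (64 * V) := by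
      exact (Nat.div_lt_iff_lt_mul (by positivity)).1 (by rw [← hH]; exact Nat.lt_succ_self H)
    have h2 : ((N₁ ^ 3 * K₁ : ℕ) : ℝ) ≤ (((H + 1) * (64 * V) : ℕ) : ℝ) := by
      exact_mod_cast h.le
    rw [hxcast] at h2
    push_cast at h2
    nlinarith
  have hHinv : 1 / (H : ℝ) ≤ 256 * Y / (q * x) := by
    rw [div_le_div_iff₀ (by linarith) (by positivity)]
    have h3 : (V : ℝ) * q ≤ 2 * Y := by
      have := mul_le_mul_of_nonneg_right hV2 hqR0.le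
      have e : 2 * (Y / q) * q = 2 * Y := by field_simp
      linarith
    have h4 : (q : ℝ) * x ≤ q * (2 * H * (64 * V)) := mul_le_mul_of_nonneg_left hxH hqR0.le
    have h5 : (q : ℝ) * (2 * H * (64 * V)) = 128 * H * (V * q) := by ring
    have h6 : 128 * (H : ℝ) * (V * q) ≤ 128 * H * (2 * Y) :=
      mul_le_mul_of_nonneg_left h3 (by positivity)
    nlinarith
  have hHup : (H : ℝ) ≤ 20 / κ * q * (x / Y) := by
    have h1 : (H : ℝ) * (64 * (Y / q)) ≤ x :=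
      le_trans (mul_le_mul_of_nonneg_left (mul_le_mul_of_nonneg_left hV1 (by norm_num))
        (by positivity)) hHx
    have h2 : (H : ℝ) * Y ≤ q * x := by
      have h3 := mul_le_mul_of_nonneg_left h1 hqR0.le
      have e : (q : ℝ) * (H * (64 * (Y / q))) = 64 * (H * Y) := by field_simp
      have h4 : 0 ≤ (H : ℝ) * Y := by positivity
      linarith
    have h5 : (H : ℝ) ≤ q * (x / Y) := by
      rw [← mul_div_assoc, le_div_iff₀ hYp]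
      exact h2
    have h6 : 0 ≤ (q : ℝ) * (x / Y) := by positivity
    nlinarith
  have hHN : (H : ℝ) ≤ N := by
    have h1 : (H : ℝ) * 64 * (Y / q) ≤ x := by
      refine le_trans ?_ hHx
      rw [mul_assoc]
      exact mul_le_mul_of_nonneg_left (mul_le_mul_of_nonneg_left hV1 (by norm_num)) (by positivity)
    have h2 : (H : ℝ) * 64 * Y ≤ q * x := by
      have h3 := mul_le_mul_of_nonneg_left h1 hqR0.le
      have e : (q : ℝ) * (H * 64 * (Y / q)) = H * 64 * Y := by field_simp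
      linarith
    have h4 : (H : ℝ) * 64 * Y ≤ N * Y := le_trans h2 hx2
    have h5 : (H : ℝ) * 64 ≤ N := le_of_mul_le_mul_right h4 hYp
    linarith
  -- the lengths
  have hMcast : ((2 * a + 1 : ℕ) : ℝ) = 2 * a + 1 := by push_cast; ring
  have hGcast : ((2 * b + 1 : ℕ) : ℝ) = 2 * b + 1 := by push_cast; ring
  have hsm1 : (1 : ℝ) ≤ 1 / κ * sM N Y Y₂ := le_trans num.m1 hsmk
  have e6 : 6 / κ * sM N Y Y₂ = 6 * (1 / κ * sM N Y Y₂) := by ring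
  have e16 : 16 / κ * sM N Y Y₂ = 16 * (1 / κ * sM N Y Y₂) := by ring
  have e20 : 20 / κ * sM N Y Y₂ = 20 * (1 / κ * sM N Y Y₂) := by ring
  have hMup : ((2 * a + 1 : ℕ) : ℝ) + 1 ≤ 16 / κ * sM N Y Y₂ := by
    rw [hMcast, e16]
    rw [e6] at ha2
    linarith
  have eg20 : 20 * sG N Y Y₂ / q = 20 * (sG N Y Y₂ / q) := by ring
  have eg8 : 8 * sG N Y Y₂ / q = 8 * (sG N Y Y₂ / q) := by ring
  have hGup : ((2 * b + 1 : ℕ) : ℝ) + 1 ≤ 20 * sG N Y Y₂ / q := by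
    rw [hGcast, eg20]
    rw [eg8] at hb2
    linarith
  have hsgq2 : sG N Y Y₂ / q ≤ sG N Y Y₂ := div_le_self hsg.le hqR
  -- the pairs
  set W : Finset (ℕ × ℕ) := (pairs N₁ K₁ 1).filter (fun p => ¬ q ∣ p.1 * p.2) with hW
  have hWmem : ∀ p ∈ W, Nat.Coprime p.1 p.2 ∧ Nat.Coprime q p.1 ∧ Nat.Coprime q p.2 := by
    intro p hp
    rw [hW, Finset.mem_filter] at hp
    obtain ⟨hp1, hp2⟩ := hp
    unfold pairs at hp1
    rw [Finset.mem_filter] at hp1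
    refine ⟨hp1.2.2.2.1, ?_, ?_⟩
    · rw [hqp.coprime_iff_not_dvd]
      exact fun h => hp2 (Dvd.dvd.mul_right h _)
    · rw [hqp.coprime_iff_not_dvd]
      exact fun h => hp2 (Dvd.dvd.mul_left h _)
  have hWcard : (W.card : ℝ) ≤ N₁ * K₁ := by
    have h : W.card ≤ N₁ * K₁ := by
      refine le_trans (Finset.card_le_card (t := Icc 1 N₁ ×ˢ Icc 1 K₁) ?_) ?_
      · intro p hp
        rw [hW, Finset.mem_filter] at hp
        unfold pairs at hp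
        exact (Finset.mem_filter.1 hp.1).1
      · rw [Finset.card_product, Nat.card_Icc, Nat.card_Icc]
        simp
    exact_mod_cast h
  have hres : ∀ p : ℕ × ℕ, ∃ ρ : ℤ × ℤ × ℤ, ∃ c₀ : ℤ, p ∈ W →
      ResG (p.1 : ℤ) (p.2 : ℤ) ((1 : ℕ) : ℤ) (q : ℤ) ((1 : ℕ) : ℤ) ((1 : ℕ) : ℤ) ρ.1 ρ.2.1 ρ.2.2 ∧
      ∀ m g z : ℤ, ((p.1 : ℤ) ^ 3 ∣ z * (p.2 : ℤ) ^ 4 + m * g * (p.2 : ℤ) ^ 2 -
        q * g ^ 2 * (p.1 : ℤ) ^ 2) → ((p.2 : ℤ) ∣ q * z * (p.1 : ℤ) ^ 2 - m ^ 2) →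
        ((p.1 ^ 3 * p.2 * 1 : ℕ) : ℤ) ∣
          z - (ρ.1 * m ^ 2 + ρ.2.1 * m * g + ρ.2.2 * g ^ 2 + c₀) := by
    intro p
    by_cases hp : p ∈ W
    · obtain ⟨ρ, c₀, h⟩ := TWB_res hRE1 hRE2 q p (hWmem p hp).1 (hWmem p hp).2.2
      exact ⟨ρ, c₀, fun _ => h⟩
    · exact ⟨0, 0, fun h => absurd h hp⟩
  choose ρ c₀ hρ using hres
  -- NUMT
  have hBlk' : Blk (κ ^ 2) (20 / κ) N Y Y₂ N₁ K₁ := by
    refine ⟨hBlk.n1, ?_, hBlk.k1, ?_⟩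
    · refine le_trans hBlk.n2 (mul_le_mul_of_nonneg_right ?_ hsn.le)
      linarith
    · refine le_trans hBlk.k2 (mul_le_mul_of_nonneg_right ?_ hsk.le)
      linarith
  have hk2 : κ ^ 2 ≤ 1 := pow_le_one₀ hκ.le hκ1
  have hM1 : κ ^ 2 * sM N Y Y₂ ≤ ((1 : ℕ) : ℝ) * ((2 * a + 1 : ℕ) : ℝ) := by
    rw [hMcast, Nat.cast_one, one_mul]
    have h1 : κ ^ 2 * sM N Y Y₂ ≤ sM N Y Y₂ := mul_le_of_le_one_left hsm.le hk2
    have h2 : (0 : ℝ) ≤ a := Nat.cast_nonneg a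
    rw [e6] at ha1
    linarith
  have hM2 : ((1 : ℕ) : ℝ) * ((2 * a + 1 : ℕ) : ℝ) ≤ 20 / κ * sM N Y Y₂ := by
    rw [Nat.cast_one, one_mul, e20]
    rw [e16] at hMup
    linarith
  have hqG : (q : ℝ) * (sG N Y Y₂ / q) = sG N Y Y₂ := by field_simp
  have hG1 : κ ^ 2 * sG N Y Y₂ ≤ (q : ℝ) * ((2 * b + 1 : ℕ) : ℝ) := by
    have h1 : κ ^ 2 * sG N Y Y₂ ≤ sG N Y Y₂ := mul_le_of_le_one_left hsg.le hk2
    have h2 : (q : ℝ) * (8 * (sG N Y Y₂ / q)) ≤ q * b := by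
      rw [← eg8]
      exact mul_le_mul_of_nonneg_left hb1 hqR0.le
    have h3 : (q : ℝ) * (8 * (sG N Y Y₂ / q)) = 8 * sG N Y Y₂ := by
      rw [mul_left_comm, hqG]
    have h4 : (0 : ℝ) ≤ q * b := by positivity
    rw [hGcast]
    have e : (q : ℝ) * (2 * b + 1) = 2 * (q * b) + q := by ring
    rw [e]
    linarith
  have hG2 : (q : ℝ) * ((2 * b + 1 : ℕ) : ℝ) ≤ 20 / κ * sG N Y Y₂ := by
    have h1 : (q : ℝ) * ((2 * b + 1 : ℕ) : ℝ) ≤ q * (20 * (sG N Y Y₂ / q)) := by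
      refine mul_le_mul_of_nonneg_left ?_ hqR0.le
      rw [eg20] at hGup
      linarith
    have h2 : (q : ℝ) * (20 * (sG N Y Y₂ / q)) = 20 * sG N Y Y₂ := by
      rw [mul_left_comm, hqG]
    have h3 : 20 * sG N Y Y₂ ≤ 20 / κ * sG N Y Y₂ := mul_le_mul_of_nonneg_right hk20 hsg.le
    linarith
  obtain ⟨aa, haa1, haa2, haa3⟩ := hM N₁ K₁ (2 * a + 1) (2 * b + 1) H q 1 q hBlk' hq1 num.q1
    (one_mul q).symm (Or.inl rfl) hM1 hM2 hG1 hG2 hH1 hHup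
  -- BLU
  have hT : ∀ m : ℕ, (m : ℝ) ≤ N → m ≤ ⌊N⌋₊ := fun m hm => Nat.le_floor hm
  have hMT : 2 * a + 1 ≤ ⌊N⌋₊ := by
    refine hT _ (le_trans ?_ num.t3)
    rw [e20]
    rw [e16] at hMup
    linarith
  have hGT : 2 * b + 1 ≤ ⌊N⌋₊ := by
    refine hT _ (le_trans ?_ num.t4)
    rw [eg20] at hGup
    linarith
  have hmain := hB ⌊N⌋₊ N₁ K₁ (2 * a + 1) (2 * b + 1) V 1 1 1 q 1 H aa W (fun _ => 1) (fun _ => 1) ρ
    (fun _ => -(a : ℤ)) (fun _ => -(b : ℤ)) (fun _ => 0) (fun _ => 0) (fun _ => 0) c₀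
    hN₁ (hT _ (le_trans hBlk.n2 num.t1)) hK₁ (hT _ (le_trans hBlk.k2 num.t2))
    (by omega) hMT (by omega) hGT hH1 (hT _ hHN) hVpos le_rfl le_rfl le_rfl hq1
    (by rw [one_mul, mul_one]; exact hT _ num.q4) le_rfl (hT _ (by rw [Nat.cast_one]; exact hN))
    (fun i => hT _ (haa2 i)) squarefree_one haa1 (Finset.filter_subset _ _)
    (fun p hp => ⟨rfl, by simpa using (hWmem p hp).1, (hρ p hp).1⟩) hHV
  -- the counting
  have hcount : (F.card : ℝ) ≤ ∑ p ∈ W, ((fibG (-(a : ℤ)) (-(b : ℤ)) 0 (2 * a + 1) (2 * b + 1) V 1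
      (p.1 ^ 3 * p.2 * 1) 0 0 (ρ p).1 (ρ p).2.1 (ρ p).2.2 (c₀ p)).card : ℝ) := by
    have hmaps : Set.MapsTo (fun t : Tpl => t.1) (F : Set Tpl) (W : Set (ℕ × ℕ)) := by
      intro t ht
      have h1 := hF t (Finset.mem_coe.1 ht)
      have h2 := hF' t (Finset.mem_coe.1 ht)
      have hT := h1.1.tt
      rw [Finset.mem_coe, hW, Finset.mem_filter]
      refine ⟨?_, h1.2.1⟩
      unfold pairs
      rw [Finset.mem_filter, Finset.mem_product, Finset.mem_Icc, Finset.mem_Icc]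
      exact ⟨⟨⟨hT.n1, h2.2.1⟩, ⟨hT.k1, h2.2.2.2⟩⟩, h2.1, h2.2.2.1, hT.co, one_dvd _⟩
    rw [Finset.card_eq_sum_card_fiberwise hmaps, Nat.cast_sum]
    refine Finset.sum_le_sum ?_
    intro p hp
    have h := TWB_fib q hqp p (hWmem p hp).2.1 (ρ p) (c₀ p) a b V (hρ p hp).2
      (F.filter (fun t => t.1 = p)) ?_
    · exact_mod_cast h
    · intro t ht
      rw [Finset.mem_filter] at ht
      obtain ⟨htF, htp⟩ := ht
      obtain ⟨hC, hnd, hZ, hg⟩ := hF t htF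
      obtain ⟨-, -, -, -, hm1, hg1, hZ0, -, -⟩ := hCZ κ N Y Y₂ t hκ hκ1 hN hY hY₂ hC
      have hz2 := hC.z2
      refine ⟨htp, hC.tt, hZ, hg, ?_, ?_, ?_, ?_⟩
      · have h : ((|t.2.1| : ℤ) : ℝ) ≤ ((a : ℤ) : ℝ) := by
          rw [Int.cast_abs, Int.cast_natCast]
          linarith
        exact_mod_cast h
      · obtain ⟨g', hg'⟩ := hg
        have hq0 : (q : ℤ) ≠ 0 := by exact_mod_cast hqp.ne_zero
        rw [hg', Int.mul_ediv_cancel_left _ hq0]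
        have h : ((|g'| : ℤ) : ℝ) ≤ ((b : ℤ) : ℝ) := by
          rw [Int.cast_abs, Int.cast_natCast]
          refine le_trans ?_ hb1
          rw [le_div_iff₀ hqR0]
          rw [hg'] at hg1
          push_cast at hg1
          rw [abs_mul, abs_of_pos hqR0] at hg1
          linarith
        exact_mod_cast h
      · obtain ⟨Z', hZ'⟩ := hZ
        have hq0 : (q : ℤ) ≠ 0 := by exact_mod_cast hqp.ne_zero
        exact Int.ediv_nonneg hZ0.le (by positivity)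
      · obtain ⟨Z', hZ'⟩ := hZ
        have hq0 : (q : ℤ) ≠ 0 := by exact_mod_cast hqp.ne_zero
        rw [hZ', Int.mul_ediv_cancel_left _ hq0]
        have h : (Z' : ℝ) < ((V : ℤ) : ℝ) := by
          rw [Int.cast_natCast]
          have h1 : (Z' : ℝ) ≤ Y / q := by
            rw [le_div_iff₀ hqR0]
            rw [hZ'] at hz2
            push_cast at hz2
            linarith
          refine lt_of_le_of_lt h1 ?_
          rw [hV]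
          push_cast
          exact Nat.lt_floor_add_one _
        exact_mod_cast h
  refine le_trans hcount (le_trans hmain ?_)
  rw [add_mul (163840 / κ ^ 5 / (q : ℝ) ^ 2)]
  refine add_le_add ?_ ?_
  · exact TWB_main κ Y Y₂ (sN N Y Y₂) (sM N Y Y₂) (sG N Y Y₂) N₁ K₁ q H _ _ _ hκ hYp hY₂p hsn hsm hsg
      (TWB_MG N Y Y₂ hNp hYp hY₂p) hBlk.n1 (by linarith) hqR0 (by linarith) hHinv
      (Nat.cast_nonneg _) hMup (Nat.cast_nonneg _) hGup (Nat.cast_nonneg _) hWcard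
  · exact TWB_err C₁ _ N (δ / 200) H _ _ x Y Y₂ q (relE δ N Y Y₂ q) hC₁ (Nat.cast_nonneg _)
      (Nat.floor_le hNp.le) (by positivity) (by linarith) hxp hYp hY₂p hqR0 hHinv
      (TWB_relE δ N Y Y₂ q hNp.le hYp.le hY₂p.le) haa3

/-! ## assembly -/

theorem TWB_cen_mono (κ κ' N Y Y₂ : ℝ) (t : Tpl) (hκ : 0 < κ) (h : κ' ≤ κ)
    (hY : 0 < Y) (hY₂ : 0 < Y₂) (hC : Cen κ N Y Y₂ t) : Cen κ' N Y Y₂ t := by
  have hl0 : 0 < (lam t : ℝ) := lt_of_lt_of_le (by positivity) hC.l1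
  have hz0 : 0 < (t.2.2.2 : ℝ) := lt_trans (by positivity) hC.z1
  exact ⟨hC.tt, hC.z1, hC.z2, hC.d1, hC.d2, le_trans (by gcongr) hC.l1, hC.l2,
    le_trans (by gcongr) hC.s1, le_trans (by gcongr) hC.s2⟩

/-- **TWB**. -/
theorem TWB (δ : ℝ) (hδ : 0 < δ) (hδ1 : δ ≤ 1 / 10) (hBLU : BLU_stmt) (hNUMT : NUMT_stmt)
    (hRE1 : RE1_stmt) (hRE2 : RE2_stmt) (hTR : TR_stmt) (hCZ : CZ_stmt) (hCBR : CBR_stmt) :
    TWB_stmt δ := by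
  intro κ₀ hκ₀
  set κ := min κ₀ 1 with hκdef
  have hκ : 0 < κ := lt_min hκ₀ one_pos
  have hκ1 : κ ≤ 1 := min_le_right _ _
  have hκle : κ ≤ κ₀ := min_le_left _ _
  have hκp : κ ^ 5 ≤ 1 := pow_le_one₀ hκ.le hκ1
  obtain ⟨C₁, hC₁, hB⟩ := hBLU (δ / 200) (by positivity)
  obtain ⟨C₂, hC₂, hR⟩ := hCBR κ hκ hκ1
  have h20 : 1 ≤ 20 / κ := by
    rw [le_div_iff₀ hκ]
    linarith
  obtain ⟨N₁, hM⟩ := hNUMT δ (κ ^ 2) (20 / κ) hδ hδ1 (by positivity) h20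
  obtain ⟨N₂, hnum⟩ := TWB_num δ κ (256 * C₁ * C₂) hδ hδ1 hκ hκ1 (by nlinarith)
  have hA : 1 ≤ 163840 / κ ^ 5 := by
    rw [le_div_iff₀ (by positivity)]
    linarith
  refine ⟨C₂ * (163840 / κ ^ 5), max N₁ N₂, by nlinarith, ?_⟩
  intro N Y hN hY1 hY2 q hq hq1 F hF
  have num := hnum N Y (le_trans (le_max_right _ _) hN) hY1 hY2 q hq hq1
  have hNp : 0 < N := by linarith [num.n1]
  have hYp : 0 < Y := by linarith [num.y1]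
  have hY₂p : 0 < N ^ (1 / 2 + δ / 100) := Real.rpow_pos_of_pos hNp _
  have hrel := TWB_relE δ N Y (N ^ (1 / 2 + δ / 100)) q hNp.le hYp.le hY₂p.le
  have hcen : ∀ t ∈ F, Cen κ N Y (N ^ (1 / 2 + δ / 100)) t := fun t ht =>
    TWB_cen_mono κ₀ κ N Y _ t hκ₀ hκle hYp hY₂p (hF t ht).1
  have hNr : 0 ≤ N ^ (δ / 200) := Real.rpow_nonneg hNp.le _
  have hbound := hR N Y (N ^ (1 / 2 + δ / 100)) num.n1 num.y1 num.w1 num.a1 num.a2 F hcen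
    ((163840 / κ ^ 5 / (q : ℝ) ^ 2 + 256 * C₁ * N ^ (δ / 200) *
      relE δ N Y (N ^ (1 / 2 + δ / 100)) q) * (Y * N ^ (1 / 2 + δ / 100))) (by positivity)
    (fun M₁ K₁ hM₁ hK₁ hBlk F' hF' hF'' =>
      TWB_block hRE1 hRE2 hCZ δ κ N Y _ C₁ (256 * C₁ * C₂) q hq hδ hκ hκ1 hC₁ num hB
        (hM N Y _ (le_trans (le_max_left _ _) hN) num.rng) M₁ K₁ hM₁ hK₁ hBlk F'
        (fun t ht => ⟨hcen t (hF' ht), (hF t (hF' ht)).2.1, (hF t (hF' ht)).2.2.1,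
          (hF t (hF' ht)).2.2.2⟩) hF'')
  refine le_trans hbound ?_
  have e : C₂ * ((163840 / κ ^ 5 / (q : ℝ) ^ 2 + 256 * C₁ * N ^ (δ / 200) *
      relE δ N Y (N ^ (1 / 2 + δ / 100)) q) * (Y * N ^ (1 / 2 + δ / 100))) =
      (C₂ * (163840 / κ ^ 5) / (q : ℝ) ^ 2 + (256 * C₁ * C₂ * N ^ (δ / 200)) *
        relE δ N Y (N ^ (1 / 2 + δ / 100)) q) * (Y * N ^ (1 / 2 + δ / 100)) := by
    ring
  rw [e]
  have h := mul_le_mul_of_nonneg_right num.c1 hrel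
  gcongr

end Pool.Agent.T5
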