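import Pool.Agent.helper3.T5.SpecA

/-! Row t5:AFUL (MP_16912e_nt): from `(a, α, γ)` to the full data -/

set_option autoImplicit false

namespace Pool.Agent.T5

open Finset NumberField Pool.Agent.helper3.FT Pool.Agent.helper47.RA

/-- norms are positive for negative discriminant -/
theorem AFUL_pos {K : Type} [Field K] [NumberField K] (Q : QF K) (hD : Q.D < 0) (x : 𝓞 K) (hx : x ≠ 0) (N : ℤ)
    (hN : x * Q.cj x = N) : 0 < N := by
  obtain ⟨x1, hx1⟩ := Q.exists_re x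
  have h1 : N = x1 ^ 2 + Q.t * x1 * Q.Y x - Q.k * Q.Y x ^ 2 := by
    have h2 := Q.norm_form x1 (Q.Y x)
    rw [← hx1, hN] at h2
    exact QF.int_inj h2
  have h3 : 4 * N = (2 * x1 + Q.t * Q.Y x) ^ 2 - Q.D * Q.Y x ^ 2 := by
    rw [h1]
    have e1 := Q.hk
    have e2 := Q.t_sq
    linear_combination (-(Q.Y x) ^ 2) * e2 + (Q.Y x) ^ 2 * e1
  have h4 : 0 ≤ N := by nlinarith [sq_nonneg (2 * x1 + Q.t * Q.Y x), sq_nonneg (Q.Y x)]
  have h5 : N ≠ 0 := by
    intro h0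
    have h6 := Q.absNorm_eq x N hN
    rw [h0, abs_zero] at h6
    have h7 : Ideal.absNorm (Ideal.span {x}) = 0 := by exact_mod_cast h6
    rw [Ideal.absNorm_eq_zero_iff, Ideal.span_singleton_eq_bot] at h7
    exact hx h7
  omega

theorem AFUL : AFUL_stmt := by
  intro K _ _ Q hD a α γ ha hpa hα hα0 hc hg
  obtain ⟨θ, hθ, hγθ⟩ := hg
  have hZ0 : Ideal.absNorm a ≠ 0 := by rwa [Ne, Ideal.absNorm_eq_zero_iff]
  have hle : Ideal.span {α} ≤ a ^ 2 := (Ideal.span_singleton_le_iff_mem _).2 hα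
  obtain ⟨L, hL⟩ := Ideal.dvd_iff_le.2 hle
  have hpL : Prim L := by
    intro q hq hdvd
    apply hc q hq
    obtain ⟨M, hM⟩ := hdvd
    refine ⟨M, ?_⟩
    rw [hL, hM]
    ring
  have hZK : ((Ideal.absNorm a : ℕ) : 𝓞 K) ≠ 0 := by exact_mod_cast hZ0
  have hγ0 : γ ≠ 0 := by
    intro h
    rw [h, zero_mul] at hγθ
    rcases mul_eq_zero.1 hγθ.symm with h1 | h1
    · exact hZK h1
    · exact hα0 ((pow_eq_zero_iff (by norm_num)).1 h1)
  have hγi : Ideal.span {γ} = Q.bar a * L ^ 2 := by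
    have h1 : Ideal.span {γ} * a ^ 5 = (Q.bar a * L ^ 2) * a ^ 5 := by
      calc Ideal.span {γ} * a ^ 5 = Ideal.span {γ * θ} := by
            rw [hθ, Ideal.span_singleton_mul_span_singleton]
        _ = Ideal.span {((Ideal.absNorm a : ℕ) : 𝓞 K)} * Ideal.span {α} ^ 2 := by
            rw [hγθ, Ideal.span_singleton_pow, Ideal.span_singleton_mul_span_singleton]
        _ = (a * Q.bar a) * (a ^ 2 * L) ^ 2 := by rw [Q.mul_bar, hL]
        _ = (Q.bar a * L ^ 2) * a ^ 5 := by ring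
    exact mul_right_cancel₀ (pow_ne_zero 5 (by rwa [Ideal.zero_eq_bot])) h1
  obtain ⟨F, hFa, hFL, hFβ, hFγ⟩ := exists_full_of Q a L α γ hα0 hγ0 hL hγi hpa hpL
  have hβn : 0 < F.Z ^ 2 * F.Λ := by
    apply AFUL_pos Q hD α hα0
    have h := F.nβ
    rw [hFβ] at h
    rw [h]
    push_cast
    ring
  have hγn : 0 < F.Z * F.Λ ^ 2 := by
    apply AFUL_pos Q hD γ hγ0
    have h := F.nγ
    rw [hFγ] at h
    rw [h]
    push_cast
    ring
  have hΛp : 0 < F.Λ := by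
    have h1 : 0 < F.Z ^ 2 := by
      have := F.hZ
      positivity
    exact (mul_pos_iff_of_pos_left h1).1 hβn
  have hZp : 0 < F.Z := by
    have h1 : 0 < F.Λ ^ 2 := by positivity
    exact (mul_pos_iff_of_pos_right h1).1 hγn
  have hZe : F.Z = (Ideal.absNorm a : ℤ) := by
    have h := F.na
    rw [hFa, abs_of_pos hZp] at h
    exact h.symm
  have hΛe : F.Λ = (lamI a α : ℤ) := by
    have h := F.nL
    rw [hFL, abs_of_pos hΛp] at h
    rw [← h]
    unfold lamI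
    rw [hL, map_mul, map_pow, Nat.mul_div_cancel_left _ (by positivity)]
  refine ⟨F, hFa, hFβ, hFγ, hZe, hΛe, ?_⟩
  have e3 := F.e3
  have eγ := F.nγ
  rw [hFβ, hFγ] at e3
  rw [hFγ] at eγ
  have hΛK : ((F.Λ : ℤ) : 𝓞 K) ^ 2 ≠ 0 := pow_ne_zero 2 (by exact_mod_cast hΛp.ne')
  have hZc : ((F.Z : ℤ) : 𝓞 K) = ((Ideal.absNorm a : ℕ) : 𝓞 K) := by
    rw [hZe]
    push_cast
    rfl
  apply mul_left_cancel₀ hΛK
  rw [← hZc]
  linear_combination (-γ) * e3 + α ^ 2 * eγ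

end Pool.Agent.T5
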