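import Pool.Agent.helper94.T5.SpecT

/-! Row t5:TA8 (MP_16912e_nt): finitely many tuples in a box -/

set_option autoImplicit false

namespace Pool.Agent.T5T

open Finset Pool.Agent.T5

theorem TA8_int (s lo hi : ℝ) (z : ℤ) (hs : 0 < s) (h : lo < (z : ℝ) / s ∧ (z : ℝ) / s ≤ hi) :
    z ∈ Set.Icc ⌊lo * s⌋ ⌈hi * s⌉ := by
  obtain ⟨h1, h2⟩ := h
  rw [lt_div_iff₀ hs] at h1
  rw [div_le_iff₀ hs] at h2
  refine ⟨?_, ?_⟩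
  · exact_mod_cast (Int.floor_le (lo * s)).trans h1.le
  · exact_mod_cast h2.trans (Int.le_ceil (hi * s))

theorem TA8_nat (s hi : ℝ) (n : ℕ) (hs : 0 < s) (h : (n : ℝ) / s ≤ hi) : n ∈ Set.Iic ⌈hi * s⌉₊ := by
  rw [div_le_iff₀ hs] at h
  show n ≤ ⌈hi * s⌉₊
  exact_mod_cast h.trans (Nat.le_ceil (hi * s))

theorem TA8 : TA8_stmt := by
  intro N Y Y₂ hN hY hY₂ b
  have hsN : 0 < sN N Y Y₂ := by unfold sN; positivity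
  have hsK : 0 < sK N Y Y₂ := by unfold sK; positivity
  have hsM : 0 < sM N Y Y₂ := by unfold sM; positivity
  have hsG : 0 < sG N Y Y₂ := by unfold sG; positivity
  have hfin : ((Set.Iic ⌈b.hi 1 * sN N Y Y₂⌉₊ ×ˢ Set.Iic ⌈b.hi 2 * sK N Y Y₂⌉₊) ×ˢ
      (Set.Icc ⌊b.lo 3 * sM N Y Y₂⌋ ⌈b.hi 3 * sM N Y Y₂⌉ ×ˢ
        (Set.Icc ⌊b.lo 4 * sG N Y Y₂⌋ ⌈b.hi 4 * sG N Y Y₂⌉ ×ˢ Set.Icc ⌊b.lo 0 * Y⌋ ⌈b.hi 0 * Y⌉)) : Set Tpl).Finite :=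
    ((Set.finite_Iic _).prod (Set.finite_Iic _)).prod
      ((Set.finite_Icc _ _).prod ((Set.finite_Icc _ _).prod (Set.finite_Icc _ _)))
  refine hfin.subset ?_
  intro t ht
  obtain ⟨h0, h1, h2, h3, h4⟩ := ht
  exact ⟨⟨TA8_nat _ _ _ hsN h1.2, TA8_nat _ _ _ hsK h2.2⟩, TA8_int _ _ _ _ hsM h3, TA8_int _ _ _ _ hsG h4,
    TA8_int _ _ _ _ hY h0⟩

end Pool.Agent.T5T
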